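import Mathlib
import Pool.Agent.Helper62.Stmt
import Pool.Agent.Helper62.Machine

/-!
Words whose Fricke polynomial has a large total number of binary digits.
-/

set_option autoImplicit false

namespace Pool.Agent.Helper62

open Polynomial

/-- Chebyshev polynomials: `uP m (2 cos t) = sin (m t) / sin t` -/
noncomputable def uP : ℕ → ℤ[X]
  | 0 => 0
  | 1 => 1
  | m + 2 => X * uP (m + 1) - uP m

theorem uP_add_two (m : ℕ) : uP (m + 2) = X * uP (m + 1) - uP m := rfl

theorem uP_coeff_ge (m : ℕ) : ∀ k, m ≤ k → (uP m).coeff k = 0 := by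
  induction m using Nat.strong_induction_on with
  | _ m ih =>
    match m with
    | 0 => intro k _; simp [uP]
    | 1 => intro k hk; rw [uP, coeff_one, if_neg (by omega)]
    | m + 2 =>
      intro k hk
      obtain ⟨k, rfl⟩ : ∃ k', k = k' + 1 := ⟨k - 1, by omega⟩
      rw [uP_add_two, coeff_sub, coeff_X_mul, ih (m + 1) (by omega) k (by omega),
        ih m (by omega) (k + 1) (by omega), sub_zero]

theorem uP_coeff_parity (m : ℕ) : ∀ k, Even (m + k) → (uP m).coeff k = 0 := by
  induction m using Nat.strong_induction_on with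
  | _ m ih =>
    match m with
    | 0 => intro k _; simp [uP]
    | 1 =>
      intro k hk
      rw [uP, coeff_one, if_neg]
      rintro rfl
      simp at hk
    | m + 2 =>
      intro k hk
      rw [uP_add_two, coeff_sub, ih m (by omega) k (by rw [Nat.even_iff] at hk ⊢; omega)]
      rcases k with _ | k
      · simp
      · rw [coeff_X_mul, ih (m + 1) (by omega) k (by rw [Nat.even_iff] at hk ⊢; omega), sub_zero]

theorem uP_coeff (m : ℕ) : ∀ i k, m = 2 * i + k + 1 →
    (uP m).coeff k = (-1) ^ i * (Nat.choose (i + k) i : ℤ) := by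
  induction m using Nat.strong_induction_on with
  | _ m ih =>
    match m with
    | 0 => intro i k h; omega
    | 1 =>
      intro i k h
      obtain ⟨rfl, rfl⟩ : i = 0 ∧ k = 0 := by omega
      simp [uP]
    | m + 2 =>
      intro i k h
      rw [uP_add_two, coeff_sub]
      rcases i with _ | i
      · rcases k with _ | k
        · omega
        · rw [coeff_X_mul, ih (m + 1) (by omega) 0 k (by omega), uP_coeff_ge m _ (by omega)]
          simp
      · rcases k with _ | k
        · rw [mul_coeff_zero, coeff_X_zero, zero_mul, ih m (by omega) i 0 (by omega)]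
          simp [pow_succ]
        · rw [coeff_X_mul, ih (m + 1) (by omega) (i + 1) k (by omega),
            ih m (by omega) i (k + 1) (by omega)]
          rw [show i + 1 + (k + 1) = (i + k + 1) + 1 by ring, Nat.choose_succ_succ,
            show i + 1 + k = i + k + 1 by ring, show i + (k + 1) = i + k + 1 by ring]
          push_cast
          ring

/-- product of polynomials in separate variables -/
noncomputable def sep (P Q R : ℤ[X]) : MvPolynomial (Fin 3) ℤ :=
  aeval (MvPolynomial.X 0) P * aeval (MvPolynomial.X 1) Q * aeval (MvPolynomial.X 2) R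

theorem expo_inj {i j k i' j' k' : ℕ} (h : expo i j k = expo i' j' k') :
    i = i' ∧ j = j' ∧ k = k' := by
  have h0 := DFunLike.congr_fun h 0
  have h1 := DFunLike.congr_fun h 1
  have h2 := DFunLike.congr_fun h 2
  simp [expo] at h0 h1 h2
  exact ⟨h0, h1, h2⟩

theorem sep_monomial (i j k : ℕ) (a b c : ℤ) :
    sep (monomial i a) (monomial j b) (monomial k c)
      = MvPolynomial.monomial (expo i j k) (a * b * c) := by
  unfold sep expo
  simp only [aeval_monomial]
  rw [MvPolynomial.X_pow_eq_monomial, MvPolynomial.X_pow_eq_monomial,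
    MvPolynomial.X_pow_eq_monomial]
  simp only [MvPolynomial.algebraMap_eq, MvPolynomial.C_mul_monomial, MvPolynomial.monomial_mul,
    mul_one]

theorem coeff_sep (P Q R : ℤ[X]) (i j k : ℕ) :
    (sep P Q R).coeff (expo i j k) = P.coeff i * Q.coeff j * R.coeff k := by
  induction P using Polynomial.induction_on' with
  | add P P' h h' =>
    have : sep (P + P') Q R = sep P Q R + sep P' Q R := by unfold sep; rw [map_add]; ring
    rw [this, MvPolynomial.coeff_add, h, h', coeff_add]; ring
  | monomial i' a =>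
    induction Q using Polynomial.induction_on' with
    | add P P' h h' =>
      have : sep (monomial i' a) (P + P') R = sep (monomial i' a) P R + sep (monomial i' a) P' R := by
        unfold sep; rw [map_add]; ring
      rw [this, MvPolynomial.coeff_add, h, h', coeff_add]; ring
    | monomial j' b =>
      induction R using Polynomial.induction_on' with
      | add P P' h h' =>
        have : sep (monomial i' a) (monomial j' b) (P + P')
            = sep (monomial i' a) (monomial j' b) P + sep (monomial i' a) (monomial j' b) P' := by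
          unfold sep; rw [map_add]; ring
        rw [this, MvPolynomial.coeff_add, h, h', coeff_add]; ring
      | monomial k' c =>
        rw [sep_monomial, MvPolynomial.coeff_monomial, coeff_monomial, coeff_monomial,
          coeff_monomial]
        by_cases h1 : i' = i
        · by_cases h2 : j' = j
          · by_cases h3 : k' = k
            · subst h1 h2 h3; simp
            · rw [if_neg (fun h => h3 (expo_inj h).2.2), if_neg h3, mul_zero]
          · rw [if_neg (fun h => h2 (expo_inj h).2.1), if_neg h2]; ring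
        · rw [if_neg (fun h => h1 (expo_inj h).1), if_neg h1]; ring

/-- the Fricke polynomial of `a ^ p b ^ q (a b) ^ r`, for `p, q, r ≥ 1`; here `p = p' + 1` etc. -/
noncomputable def bigP (p q r : ℕ) : MvPolynomial (Fin 3) ℤ :=
  sep (uP (p + 1)) (uP (q + 1)) (uP (r + 3) - uP (r + 1))
    - sep (X * uP (p + 1)) (uP q) (uP (r + 2))
    + sep (uP (p + 1)) (X * uP q) (uP (r + 1))
    - sep (uP p) (X * uP (q + 1)) (uP (r + 2))
    + sep (X * uP p) (uP (q + 1)) (uP (r + 1))
    + sep (uP p) (uP q) (uP (r + 2) - uP r)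

theorem choose_aux (κ k : ℕ) (h : κ + 2 ≤ k) : 2 ^ (κ + 1) ≤ Nat.choose (κ + k) (κ + 1) := by
  have h1 : Nat.choose (2 * (κ + 1)) (κ + 1) ≤ Nat.choose (κ + k) (κ + 1) :=
    Nat.choose_le_choose _ (by omega)
  refine le_trans ?_ h1
  have h2 : ∀ m : ℕ, 2 ^ m ≤ Nat.choose (2 * m) m := by
    intro m
    induction m with
    | zero => simp
    | succ m ih =>
      have h3 := Nat.succ_mul_centralBinom_succ m
      unfold Nat.centralBinom at h3
      have h4 : (m + 1) * (2 * Nat.choose (2 * m) m) ≤ (m + 1) * Nat.choose (2 * (m + 1)) (m + 1) := by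
        rw [h3]
        nlinarith [Nat.zero_le (Nat.choose (2 * m) m)]
      have h5 := Nat.le_of_mul_le_mul_left h4 (Nat.succ_pos m)
      calc 2 ^ (m + 1) = 2 * 2 ^ m := by ring
        _ ≤ 2 * Nat.choose (2 * m) m := Nat.mul_le_mul_left _ ih
        _ ≤ _ := h5
  exact h2 (κ + 1)

/-- lower bound for coefficients -/
theorem bigP_coeff (i j κ i' j' k' : ℕ) (hk : κ + 2 ≤ k') :
    (2 : ℤ) ^ (κ + 1) ≤ |(bigP (2 * i + i') (2 * j + j') (2 * κ + k')).coeff (expo i' j' k')| := by
  set p := 2 * i + i' with hp
  set q := 2 * j + j' with hq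
  set r := 2 * κ + k' with hr
  unfold bigP
  simp only [MvPolynomial.coeff_add, MvPolynomial.coeff_sub, coeff_sep, coeff_sub]
  have hX : ∀ (m k : ℕ), Even (m + k + 1) → (X * uP m).coeff k = 0 := by
    intro m k h
    rcases k with _ | k
    · simp
    · rw [coeff_X_mul]
      exact uP_coeff_parity _ _ (by rw [Nat.even_iff] at h ⊢; omega)
  rw [hX (p + 1) i' (by rw [Nat.even_iff]; omega), uP_coeff_parity p i' (by rw [Nat.even_iff]; omega),
    uP_coeff (p + 1) i i' (by omega), uP_coeff (q + 1) j j' (by omega),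
    uP_coeff (r + 3) (κ + 1) k' (by omega), uP_coeff (r + 1) κ k' (by omega)]
  -- the two remaining terms
  obtain ⟨β, hβ, hβ0, hβ1⟩ : ∃ β : ℤ, (X * uP q).coeff j' = (-1) ^ j * β ∧ 0 ≤ β ∧
      β ≤ Nat.choose (j + j') j := by
    rcases j' with _ | j'
    · exact ⟨0, by simp, le_rfl, by positivity⟩
    · refine ⟨Nat.choose (j + j') j, ?_, by positivity, ?_⟩
      · rw [coeff_X_mul, uP_coeff q j j' (by omega)]
      · exact_mod_cast Nat.choose_le_choose _ (by omega)
  obtain ⟨α, hα, hα0, hα1⟩ : ∃ α : ℤ, (X * uP p).coeff i' = (-1) ^ i * α ∧ 0 ≤ α ∧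
      α ≤ Nat.choose (i + i') i := by
    rcases i' with _ | i'
    · exact ⟨0, by simp, le_rfl, by positivity⟩
    · refine ⟨Nat.choose (i + i') i, ?_, by positivity, ?_⟩
      · rw [coeff_X_mul, uP_coeff p i i' (by omega)]
      · exact_mod_cast Nat.choose_le_choose _ (by omega)
  rw [hβ, hα]
  have hpas : (Nat.choose (κ + 1 + k') (κ + 1) : ℤ)
      = Nat.choose (κ + k') κ + Nat.choose (κ + k') (κ + 1) := by
    rw [show κ + 1 + k' = (κ + k') + 1 by ring, Nat.choose_succ_succ]
    push_cast; ring
  rw [hpas]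
  set P : ℤ := ((Nat.choose (i + i') i : ℕ) : ℤ) with hP
  set Q : ℤ := ((Nat.choose (j + j') j : ℕ) : ℤ) with hQ
  set G : ℤ := ((Nat.choose (κ + k') κ : ℕ) : ℤ) with hG
  set H : ℤ := ((Nat.choose (κ + k') (κ + 1) : ℕ) : ℤ) with hH
  have hP1 : 1 ≤ P := by rw [hP]; exact_mod_cast Nat.choose_pos (by omega)
  have hQ1 : 1 ≤ Q := by rw [hQ]; exact_mod_cast Nat.choose_pos (by omega)
  have hG0 : 0 ≤ G := by rw [hG]; positivity
  have hH1 : (2 : ℤ) ^ (κ + 1) ≤ H := by rw [hH]; exact_mod_cast choose_aux κ k' hk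
  have e : (-1) ^ i * P * ((-1) ^ j * Q) * ((-1) ^ (κ + 1) * (G + H) - (-1) ^ κ * G)
      - 0 * (uP q).coeff j' * (uP (r + 2)).coeff k'
      + (-1) ^ i * P * ((-1) ^ j * β) * ((-1) ^ κ * G)
      - 0 * (X * uP (q + 1)).coeff j' * (uP (r + 2)).coeff k'
      + (-1) ^ i * α * ((-1) ^ j * Q) * ((-1) ^ κ * G)
      + 0 * (uP q).coeff j' * ((uP (r + 2)).coeff k' - (uP r).coeff k')
      = (-1) ^ (i + j + κ + 1) * (P * Q * (2 * G + H) - P * β * G - α * Q * G) := by
    ring
  rw [e, abs_mul, abs_pow, abs_neg, abs_one, one_pow, one_mul]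
  have h1 : P * β * G ≤ P * Q * G := by gcongr
  have h2 : α * Q * G ≤ P * Q * G := by gcongr
  have h3 : H ≤ P * Q * H := by
    have hH0 : 0 ≤ H := by rw [hH]; positivity
    have : 1 ≤ P * Q := by nlinarith
    nlinarith
  refine le_trans ?_ (le_abs_self _)
  nlinarith

end Pool.Agent.Helper62
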