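import Pool.Agent.Helper62.Out.Word

/-!
Total number of binary digits.
-/

set_option autoImplicit false

namespace Pool.Agent.Helper62

open Finset

/-- the total number of binary digits of the nonzero coefficients of `f` -/
noncomputable def numBits (f : MvPolynomial (Fin 3) ℤ) : ℕ :=
  ∑ m ∈ f.support, Nat.size (f.coeff m).natAbs

theorem length_flatMap_range {α : Type} (n : ℕ) (g : ℕ → List α) :
    ((List.range n).flatMap g).length = ∑ i ∈ range n, (g i).length := by
  induction n with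
  | zero => simp
  | succ n ih => rw [List.range_succ, List.flatMap_append, List.length_append, ih,
      sum_range_succ]; simp

theorem length_encInt (c : ℤ) : (encInt c).length = Nat.size c.natAbs + 1 := by
  simp [encInt, Nat.size_eq_bits_len]

theorem length_denseTable (n : ℕ) (f : MvPolynomial (Fin 3) ℤ) :
    (denseTable n f).length = ∑ t ∈ range (n + 1) ×ˢ range (n + 1) ×ˢ range (n + 1),
      (Nat.size (f.coeff (expo t.1 t.2.1 t.2.2)).natAbs + 1) := by
  unfold denseTable
  rw [sum_product, length_flatMap_range]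
  refine sum_congr rfl fun i _ => ?_
  rw [sum_product, length_flatMap_range]
  refine sum_congr rfl fun j _ => ?_
  rw [length_flatMap_range]
  exact sum_congr rfl fun k _ => length_encInt _

theorem numBits_le_dense (n : ℕ) (f : MvPolynomial (Fin 3) ℤ) (hf : f.totalDegree ≤ n) :
    numBits f ≤ (denseTable n f).length := by
  classical
  rw [length_denseTable]
  set S := range (n + 1) ×ˢ range (n + 1) ×ˢ range (n + 1) with hS
  have hsub : f.support ⊆ S.image fun t => expo t.1 t.2.1 t.2.2 := by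
    intro m hm
    have h1 := (MvPolynomial.le_totalDegree hm).trans hf
    rw [Finsupp.sum_fintype _ _ (fun _ => rfl), Fin.sum_univ_three] at h1
    rw [mem_image]
    refine ⟨(m 0, m 1, m 2), ?_, expo_eta m⟩
    simp only [hS, mem_product, mem_range]
    omega
  calc numBits f ≤ ∑ m ∈ S.image fun t => expo t.1 t.2.1 t.2.2, Nat.size (f.coeff m).natAbs :=
        sum_le_sum_of_subset hsub
    _ ≤ ∑ t ∈ S, Nat.size (f.coeff (expo t.1 t.2.1 t.2.2)).natAbs := by
        rw [sum_image]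
        rintro ⟨i, j, k⟩ _ ⟨i', j', k'⟩ _ h
        obtain ⟨rfl, rfl, rfl⟩ := expo_inj h
        rfl
    _ ≤ _ := sum_le_sum fun t _ => Nat.le_succ _

theorem numBits_bigP (p q r R : ℕ) (hR : 3 * R ≤ r + 1) :
    (p / 2 + 1) * (q / 2 + 1) * (R * R) ≤ 2 * numBits (bigP p q r) := by
  classical
  set f := bigP p q r with hf
  set S := range (p / 2 + 1) ×ˢ range (q / 2 + 1) ×ˢ range R with hS
  set e : ℕ × ℕ × ℕ → (Fin 3 →₀ ℕ) := fun t => expo (p - 2 * t.1) (q - 2 * t.2.1) (r - 2 * t.2.2)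
    with he
  have hco : ∀ t ∈ S, t.2.2 + 1 ≤ Nat.size (f.coeff (e t)).natAbs := by
    rintro ⟨i, j, κ⟩ ht
    simp only [hS, mem_product, mem_range] at ht
    have h1 := bigP_coeff i j κ (p - 2 * i) (q - 2 * j) (r - 2 * κ) (by omega)
    rw [show 2 * i + (p - 2 * i) = p by omega, show 2 * j + (q - 2 * j) = q by omega,
      show 2 * κ + (r - 2 * κ) = r by omega] at h1
    have h2 : 2 ^ (κ + 1) ≤ (f.coeff (e (i, j, κ))).natAbs := by
      have h3 : ((2 ^ (κ + 1) : ℕ) : ℤ) ≤ ((f.coeff (e (i, j, κ))).natAbs : ℤ) := by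
        rw [Int.natCast_natAbs]
        push_cast
        exact h1
      exact_mod_cast h3
    exact (Nat.lt_size.2 h2).le
  have hsub : S.image e ⊆ f.support := by
    intro m hm
    obtain ⟨t, ht, rfl⟩ := mem_image.1 hm
    rw [MvPolynomial.mem_support_iff]
    intro h0
    have := hco t ht
    rw [h0] at this
    simp at this
  have hinj : Set.InjOn e S := by
    rintro ⟨i, j, k⟩ h1 ⟨i', j', k'⟩ h2 h
    simp only [hS, coe_product, coe_range, Set.mem_prod, Set.mem_Iio] at h1 h2
    obtain ⟨h3, h4, h5⟩ := expo_inj h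
    simp only at h3 h4 h5
    have e1 : i = i' := by omega
    have e2 : j = j' := by omega
    have e3 : k = k' := by omega
    rw [e1, e2, e3]
  have h1 : ∑ t ∈ S, (t.2.2 + 1) ≤ numBits f := by
    calc ∑ t ∈ S, (t.2.2 + 1) ≤ ∑ t ∈ S, Nat.size (f.coeff (e t)).natAbs := sum_le_sum hco
      _ = ∑ m ∈ S.image e, Nat.size (f.coeff m).natAbs := (sum_image (f := fun m => Nat.size (f.coeff m).natAbs) hinj).symm
      _ ≤ _ := sum_le_sum_of_subset hsub
  have h2 : ∑ t ∈ S, (t.2.2 + 1) = (p / 2 + 1) * ((q / 2 + 1) * ∑ κ ∈ range R, (κ + 1)) := by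
    rw [hS, sum_product]
    simp only [sum_product, sum_const, card_range, smul_eq_mul]
  have h3 : R * R ≤ 2 * ∑ κ ∈ range R, (κ + 1) := by
    clear hS hco hsub hinj h1 h2 S hR
    induction R with
    | zero => simp
    | succ R ih => rw [sum_range_succ]; nlinarith
  calc (p / 2 + 1) * (q / 2 + 1) * (R * R)
      ≤ (p / 2 + 1) * (q / 2 + 1) * (2 * ∑ κ ∈ range R, (κ + 1)) := Nat.mul_le_mul_left _ h3
    _ = 2 * ∑ t ∈ S, (t.2.2 + 1) := by rw [h2]; ring
    _ ≤ 2 * numBits f := Nat.mul_le_mul_left _ h1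

theorem numBits_pos (w : List Letter) : 1 ≤ numBits (frP w) := by
  have h := isFricke_frP w 1 1
  have h1 : wordEval (1 : SL2C) 1 w = 1 := by
    unfold wordEval
    refine List.prod_eq_one fun x hx => ?_
    obtain ⟨l, _, rfl⟩ := List.mem_map.1 hx
    cases l <;> simp [Letter.eval]
  have h2 : frP w ≠ 0 := by
    intro h0
    rw [h0, h1] at h
    simp [Matrix.trace_one] at h
  obtain ⟨m, hm⟩ := MvPolynomial.exists_coeff_ne_zero h2
  have h3 : m ∈ (frP w).support := MvPolynomial.mem_support_iff.2 hm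
  have h4 : 1 ≤ Nat.size ((frP w).coeff m).natAbs := by
    rw [Nat.one_le_iff_ne_zero, Ne, Nat.size_eq_zero]
    simpa using hm
  exact h4.trans (single_le_sum (f := fun m => Nat.size ((frP w).coeff m).natAbs)
    (fun _ _ => Nat.zero_le _) h3)

theorem exists_big (n : ℕ) : ∃ w : List Letter, w.length = n ∧
    (n + 1) ^ 4 ≤ 259200 * numBits (frP w) := by
  rcases Nat.lt_or_ge n 12 with hn | hn
  · refine ⟨List.replicate n Letter.a, by simp, ?_⟩
    have h1 := numBits_pos (List.replicate n Letter.a)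
    have h2 : (n + 1) ^ 4 ≤ 12 ^ 4 := Nat.pow_le_pow_left (by omega) 4
    omega
  · obtain ⟨m, hm⟩ : ∃ m, m = n / 4 := ⟨_, rfl⟩
    have hm3 : 3 ≤ m := by omega
    obtain ⟨p, rfl⟩ : ∃ p, m = p + 1 := ⟨m - 1, by omega⟩
    obtain ⟨q, hq⟩ : ∃ q, n - 3 * (p + 1) = q + 1 := ⟨n - 3 * (p + 1) - 1, by omega⟩
    refine ⟨bigW (p + 1) (q + 1) (p + 1), by rw [bigW_length]; omega, ?_⟩
    have e : frP (bigW (p + 1) (q + 1) (p + 1)) = bigP p q p :=
      fricke_unique (isFricke_frP _) (isFricke_bigP p q p)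
    rw [e]
    have h1 := numBits_bigP p q p ((p + 1) / 3) (by omega)
    have a1 : p + 1 ≤ 2 * (p / 2 + 1) := by omega
    have a2 : p + 1 ≤ 2 * (q / 2 + 1) := by omega
    have a3 : p + 1 ≤ 5 * ((p + 1) / 3) := by omega
    have a4 : n + 1 ≤ 6 * (p + 1) := by omega
    have h2 : (p + 1) ^ 4 ≤ 200 * numBits (bigP p q p) := by
      calc (p + 1) ^ 4 = (p + 1) * (p + 1) * ((p + 1) * (p + 1)) := by ring
        _ ≤ (2 * (p / 2 + 1)) * (2 * (q / 2 + 1)) * ((5 * ((p + 1) / 3)) * (5 * ((p + 1) / 3))) := by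
            gcongr
        _ = 100 * ((p / 2 + 1) * (q / 2 + 1) * ((p + 1) / 3 * ((p + 1) / 3))) := by ring
        _ ≤ 100 * (2 * numBits (bigP p q p)) := Nat.mul_le_mul_left _ h1
        _ = _ := by ring
    calc (n + 1) ^ 4 ≤ (6 * (p + 1)) ^ 4 := Nat.pow_le_pow_left a4 4
      _ = 1296 * (p + 1) ^ 4 := by ring
      _ ≤ 1296 * (200 * numBits (bigP p q p)) := Nat.mul_le_mul_left _ h2
      _ = _ := by ring

end Pool.Agent.Helper62
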