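import Pool.Agent.Helper62.Out.Coef

/-!
The Fricke polynomial of `a ^ p b ^ q (a b) ^ r`.
-/

set_option autoImplicit false

namespace Pool.Agent.Helper62

open Polynomial Matrix

/-- value of `uP` at a complex number -/
noncomputable def uv (x : ℂ) (m : ℕ) : ℂ := aeval x (uP m)

theorem uv_zero (x : ℂ) : uv x 0 = 0 := by simp [uv, uP]
theorem uv_one (x : ℂ) : uv x 1 = 1 := by simp [uv, uP]
theorem uv_add_two (x : ℂ) (m : ℕ) : uv x (m + 2) = x * uv x (m + 1) - uv x m := by
  simp [uv, uP_add_two]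

theorem sl2_sq (A : SL2C) : A.1 * A.1 = A.1.trace • A.1 - 1 := by
  have h := sl2_add_inv A
  have h2 : A.1 * (A⁻¹).1 = 1 := by
    rw [← Matrix.SpecialLinearGroup.coe_mul, mul_inv_cancel]; rfl
  have h3 : A.1 * (A.1 + (A⁻¹).1) = A.1 * (A.1.trace • (1 : Matrix (Fin 2) (Fin 2) ℂ)) := by rw [h]
  rw [mul_add, h2, mul_smul_comm, mul_one] at h3
  exact eq_sub_of_add_eq h3

theorem sl2_pow (A : SL2C) (m : ℕ) :
    A.1 ^ (m + 1) = uv A.1.trace (m + 1) • A.1 - uv A.1.trace m • (1 : Matrix (Fin 2) (Fin 2) ℂ) := by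
  induction m with
  | zero => simp [uv_one, uv_zero]
  | succ m ih =>
    rw [pow_succ, ih, sub_mul, smul_mul_assoc, sl2_sq, smul_mul_assoc, one_mul, uv_add_two]
    rw [smul_sub, smul_smul, sub_smul, mul_comm]
    abel

/-- the words -/
def bigW (p q r : ℕ) : List Letter :=
  List.replicate p Letter.a ++ List.replicate q Letter.b ++
    (List.replicate r [Letter.a, Letter.b]).flatten

theorem bigW_length (p q r : ℕ) : (bigW p q r).length = p + q + 2 * r := by
  simp [bigW]; ring

theorem wordEval_append (A B : SL2C) (u v : List Letter) :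
    wordEval A B (u ++ v) = wordEval A B u * wordEval A B v := by simp [wordEval]

theorem bigW_eval (A B : SL2C) (p q r : ℕ) :
    wordEval A B (bigW p q r) = A ^ p * B ^ q * (A * B) ^ r := by
  unfold bigW
  rw [wordEval_append, wordEval_append]
  congr 1
  · congr 1 <;> simp [wordEval, Letter.eval]
  · induction r with
    | zero => simp [wordEval]
    | succ r ih =>
      rw [List.replicate_succ, List.flatten_cons, wordEval_append, ih, pow_succ']
      simp [wordEval, Letter.eval]

theorem aeval_sep (x y z : ℂ) (P Q R : ℤ[X]) :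
    MvPolynomial.aeval ![x, y, z] (sep P Q R) = aeval x P * aeval y Q * aeval z R := by
  unfold sep
  rw [map_mul, map_mul, ← Polynomial.aeval_algHom_apply, ← Polynomial.aeval_algHom_apply,
    ← Polynomial.aeval_algHom_apply]
  simp

theorem isFricke_bigP (p q r : ℕ) : IsFricke (bigW (p + 1) (q + 1) (r + 1)) (bigP p q r) := by
  intro A B
  rw [bigW_eval]
  simp only [Matrix.SpecialLinearGroup.coe_mul, Matrix.SpecialLinearGroup.coe_pow]
  have hA := sl2_pow A p
  have hB := sl2_pow B q
  have hC := sl2_pow (A * B) r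
  rw [Matrix.SpecialLinearGroup.coe_mul] at hC
  rw [hA, hB, hC]
  have hA2 := sl2_sq A
  have hB2 := sl2_sq B
  have hC2 := sl2_sq (A * B)
  rw [Matrix.SpecialLinearGroup.coe_mul] at hC2
  set x := A.1.trace with hx
  set y := B.1.trace with hy
  set a := A.1 with ha
  set b := B.1 with hb
  set z := (a * b).trace with hz
  have t1 : (a * b * (a * b)).trace = z ^ 2 - 2 := by
    rw [hC2, Matrix.trace_sub, Matrix.trace_smul, smul_eq_mul, ← hz, Matrix.trace_one]
    simp; ring
  have t2 : (a * (a * b)).trace = x * z - y := by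
    rw [← mul_assoc, hA2, sub_mul, smul_mul_assoc, one_mul, Matrix.trace_sub, Matrix.trace_smul,
      smul_eq_mul, ← hz, ← hy]
  have t3 : (b * (a * b)).trace = y * z - x := by
    rw [Matrix.trace_mul_comm, mul_assoc, hB2, mul_sub, mul_smul_comm, mul_one, Matrix.trace_sub,
      Matrix.trace_smul, smul_eq_mul, ← hz, ← hx]
  have t4 : (1 : Matrix (Fin 2) (Fin 2) ℂ).trace = 2 := by rw [Matrix.trace_one]; simp
  unfold bigP
  simp only [map_add, map_sub, aeval_sep, map_mul, aeval_X]
  change _ = uv x (p + 1) * uv y (q + 1) * (uv z (r + 3) - uv z (r + 1))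
    - x * uv x (p + 1) * uv y q * uv z (r + 2) + uv x (p + 1) * (y * uv y q) * uv z (r + 1)
    - uv x p * (y * uv y (q + 1)) * uv z (r + 2) + x * uv x p * uv y (q + 1) * uv z (r + 1)
    + uv x p * uv y q * (uv z (r + 2) - uv z r)
  rw [uv_add_two z (r + 1), uv_add_two z r]
  simp only [sub_mul, mul_sub, smul_mul_assoc, mul_smul_comm, mul_one, one_mul, smul_smul,
    Matrix.trace_sub, Matrix.trace_smul, smul_eq_mul, smul_sub]
  simp only [t1, t2, t3, t4, ← hx, ← hy, ← hz]
  ring

end Pool.Agent.Helper62
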